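import Pool.Agent.H158.GK.Up

set_option autoImplicit false

/-! A one-sided bound for `M` of the order `√x (log log log x)^κ`, `κ < 5/4`, produces relations of precision
`exp (-exp ((log T)^θ))`, `θ κ < 5/4`, between the ordinates. -/

namespace Pool.Agent.H158.GK

open Filter Topology Set MeasureTheory Complex
open Pool.Agent.W263.BSD Pool.Agent.W120.WM Pool.Agent.Y853.HM Pool.Agent.H198.GM Pool.Agent.H158.GM

/-- **Main inequality.** -/
theorem mainK : ∃ c : ℝ, 0 < c ∧ ∀ s B κ θ : ℝ, (s = 1 ∨ s = -1) → 0 < B → 0 ≤ κ → κ ≤ 5 / 4 → 1 ≤ θ → θ * κ < 5 / 4 →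
    OneSidedK s B κ → ∀ᶠ T : ℝ in atTop, ∃ R : Finset ℝ,
      (∀ t ∈ R, 0 < t ∧ t ≤ T ∧ riemannZeta (1 / 2 + t * I) = 0 ∧ deriv riemannZeta (1 / 2 + t * I) ≠ 0 ∧
        Related (AA θ T) T t) ∧
      c * Real.log T ^ (5 / 4 : ℝ) ≤ ∑ t ∈ R, 1 / ‖(1 / 2 + t * I) * deriv riemannZeta (1 / 2 + t * I)‖ := by
  classical
  obtain ⟨c, hc, hamp⟩ := ampl
  refine ⟨c / 4, by positivity, ?_⟩
  intro s B κ θ hs hB hκ0 hκ1 hθ hθκ h
  have hg := (h.one hB hκ1).lint hs hB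
  obtain ⟨C, hC, hup0⟩ := up_scaleK hs hB hκ0 hκ1 hθ h (t₀ := 16) (by norm_num)
  have E10 : ∀ᶠ T : ℝ in atTop, 1100 * T ^ 3 ≤ Real.exp T := by
    have h1 := (isLittleO_rpow_exp_atTop 3).bound (c := 1 / 1100) (by norm_num)
    filter_upwards [h1, eventually_ge_atTop 0] with T h2 h4
    rw [Real.norm_of_nonneg (Real.rpow_nonneg h4 _), Real.norm_of_nonneg (Real.exp_pos T).le] at h2
    have e : T ^ (3 : ℝ) = T ^ 3 := by exact_mod_cast Real.rpow_natCast T 3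
    rw [e] at h2
    linarith
  have E12 : ∀ᶠ T : ℝ in atTop, 8 * C / c ≤ Real.log T ^ (5 / 4 - θ * κ) :=
    ((tendsto_rpow_atTop (by linarith)).comp Real.tendsto_log_atTop).eventually_ge_atTop _
  filter_upwards [hup0, hamp, E10, E12, eventually_ge_atTop (20 : ℝ),
    Real.tendsto_log_atTop.eventually_ge_atTop 1] with T hT2 hT3 hT4 hT12 hT5 hlog1
  obtain ⟨S, hS, hcard, hsum⟩ := hT3
  have hT0 : 0 < T := by linarith
  have hlog0 : 0 < Real.log T := by linarith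
  obtain ⟨S₁, hS₁⟩ : ∃ S₁ : Finset ℝ, S₁ = S.filter (fun t => ¬ Related (AA θ T) T t) := ⟨_, rfl⟩
  obtain ⟨R, hR⟩ : ∃ R : Finset ℝ, R = S.filter (fun t => Related (AA θ T) T t) := ⟨_, rfl⟩
  have hS₁S : S₁ ⊆ S := by rw [hS₁]; exact Finset.filter_subset _ _
  have hfree : Free (AA θ T) T S₁ := by
    intro S' hS' ε' γ₀ hcl
    obtain ⟨t, ht⟩ : S'.Nonempty := Finset.card_pos.1 (by have := hcl.1; omega)
    have h1 := hS' ht
    rw [hS₁, Finset.mem_filter] at h1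
    exact h1.2 ⟨S', ε', γ₀, ht, hcl⟩
  have hup := hT2 S₁ hfree (fun t ht => ⟨(hS t (hS₁S ht)).1, (hS t (hS₁S ht)).2.1, (hS t (hS₁S ht)).2.2.1⟩)
    (le_trans (by exact_mod_cast Finset.card_le_card hS₁S) hcard)
  obtain ⟨E, hE⟩ : ∃ E : ℝ, E = Real.exp (Real.log T ^ θ) * T ^ 4 := ⟨_, rfl⟩
  rw [← hE] at hup
  have hTE : T ≤ E := by
    have h1 : 1 ≤ Real.exp (Real.log T ^ θ) := Real.one_le_exp (Real.rpow_nonneg hlog0.le _)
    have h2 : T ≤ T ^ 4 := le_self_pow₀ (by linarith) (by norm_num)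
    rw [hE]
    nlinarith
  obtain ⟨δ, hδ⟩ : ∃ δ : ℝ, δ = Real.exp (-E) := ⟨_, rfl⟩
  rw [← hδ] at hup
  have hδ0 : 0 < δ := by rw [hδ]; exact Real.exp_pos _
  have hδi : δ⁻¹ = Real.exp E := by rw [hδ, ← Real.exp_neg, neg_neg]
  have hδ20 : δ ≤ 1 / 20 := by
    rw [← inv_inv δ, one_div]
    refine inv_anti₀ (by norm_num) ?_
    rw [hδi]
    have := Real.add_one_le_exp E
    linarith
  have hy := hsum (1100 * T * δ) (by positivity) (by
    rw [le_div_iff₀ (by positivity)]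
    have h1 : 1100 * T * δ * T ^ 2 = 1100 * T ^ 3 * δ := by ring
    rw [h1, ← le_div_iff₀ hδ0, one_div, hδi]
    exact hT4.trans (Real.exp_le_exp.2 hTE))
  obtain ⟨Y, hY⟩ : ∃ Y : ℝ, Y = Real.log T ^ (5 / 4 : ℝ) := ⟨_, rfl⟩
  have hY0 : 0 < Y := by rw [hY]; exact Real.rpow_pos_of_pos hlog0 _
  have hYκ : 8 * (C * Real.log T ^ (θ * κ)) ≤ c * Y := by
    have h1 : Y = Real.log T ^ (5 / 4 - θ * κ) * Real.log T ^ (θ * κ) := by
      rw [hY, ← Real.rpow_add hlog0]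
      congr 1
      ring
    rw [div_le_iff₀ hc] at hT12
    rw [h1]
    calc 8 * (C * Real.log T ^ (θ * κ)) = (8 * C) * Real.log T ^ (θ * κ) := by ring
      _ ≤ (Real.log T ^ (5 / 4 - θ * κ) * c) * Real.log T ^ (θ * κ) :=
          mul_le_mul_of_nonneg_right hT12 (Real.rpow_nonneg hlog0.le _)
      _ = _ := by ring
  rw [← hY] at hy ⊢
  have hlow : 1 / 4 * ∑ t ∈ S₁, 1 / (t * (‖deriv riemannZeta (1 / 2 + t * I)‖ + 1100 * T * δ)) ≤
      δ * ∑ t ∈ S₁, ‖lapC g (pt t + δ)‖ := by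
    rw [Finset.mul_sum, Finset.mul_sum]
    exact Finset.sum_le_sum fun t ht =>
      lap_low hg (hS t (hS₁S ht)).1 (hS t (hS₁S ht)).2.1 hδ0 hδ20 (hS t (hS₁S ht)).2.2.1 (hS t (hS₁S ht)).2.2.2
  have hsplit : ∑ t ∈ R, 1 / (t * (‖deriv riemannZeta (1 / 2 + t * I)‖ + 1100 * T * δ)) +
      ∑ t ∈ S₁, 1 / (t * (‖deriv riemannZeta (1 / 2 + t * I)‖ + 1100 * T * δ)) =
      ∑ t ∈ S, 1 / (t * (‖deriv riemannZeta (1 / 2 + t * I)‖ + 1100 * T * δ)) := by
    rw [hR, hS₁]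
    exact Finset.sum_filter_add_sum_filter_not S _ _
  have hRlow : c / 2 * Y ≤ ∑ t ∈ R, 1 / (t * (‖deriv riemannZeta (1 / 2 + t * I)‖ + 1100 * T * δ)) := by
    linarith
  have hRS : ∀ t ∈ R, t ∈ S ∧ Related (AA θ T) T t := by
    intro t ht
    rw [hR, Finset.mem_filter] at ht
    exact ht
  refine ⟨R, fun t ht => ⟨by linarith [(hS t (hRS t ht).1).1], (hS t (hRS t ht).1).2.1, (hS t (hRS t ht).1).2.2.1,
    norm_pos_iff.1 (hS t (hRS t ht).1).2.2.2, (hRS t ht).2⟩, ?_⟩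
  have hterm : ∀ t ∈ R, 1 / (t * (‖deriv riemannZeta (1 / 2 + t * I)‖ + 1100 * T * δ)) ≤
      2 * (1 / ‖(1 / 2 + t * I) * deriv riemannZeta (1 / 2 + t * I)‖) := by
    intro t ht
    have h16 := (hS t (hRS t ht).1).1
    have hD := (hS t (hRS t ht).1).2.2.2
    have hn := (pt_norm t).2
    rw [abs_of_pos (by linarith)] at hn
    have hn0 : 0 < ‖(1 / 2 + t * I : ℂ)‖ := by
      have := (pt_norm t).1
      rw [abs_of_pos (by linarith)] at this
      exact lt_of_lt_of_le (by linarith) this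
    rw [norm_mul, ← mul_div_assoc, mul_one, div_le_div_iff₀ (by positivity) (by positivity), one_mul]
    have h1 : ‖(1 / 2 + t * I : ℂ)‖ ≤ 2 * t := le_trans hn (by linarith)
    calc ‖(1 / 2 + t * I : ℂ)‖ * ‖deriv riemannZeta (1 / 2 + t * I)‖ ≤
        2 * t * ‖deriv riemannZeta (1 / 2 + t * I)‖ := mul_le_mul_of_nonneg_right h1 hD.le
      _ ≤ 2 * t * (‖deriv riemannZeta (1 / 2 + t * I)‖ + 1100 * T * δ) := by
          refine mul_le_mul_of_nonneg_left ?_ (by linarith)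
          have : 0 ≤ 1100 * T * δ := by positivity
          linarith
      _ = 2 * (t * (‖deriv riemannZeta (1 / 2 + t * I)‖ + 1100 * T * δ)) := by ring
  have hsum2 := Finset.sum_le_sum hterm
  rw [← Finset.mul_sum] at hsum2
  linarith

end Pool.Agent.H158.GK
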