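import Pool.Agent.H158.GM.Main
import Pool.Agent.H158.GL.Up

set_option autoImplicit false

/-! One-sided bounds of smaller order for the Moebius function produce closer relations. -/

namespace Pool.Agent.H158.GK

open Filter Topology Set MeasureTheory Complex
open Pool.Agent.W263.BSD Pool.Agent.W120.WM Pool.Agent.Y853.HM Pool.Agent.H198.GM Pool.Agent.H158.GM Pool.Agent.H158.GL

/-- the one-sided pointwise bound -/
def OneSidedK (s B κ : ℝ) : Prop :=
  ∀ᶠ x : ℝ in atTop, s * Mx x ≤ B * (Real.sqrt x * Real.log (Real.log (Real.log x)) ^ κ)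

theorem OneSidedK.one {s B κ : ℝ} (hB : 0 < B) (hκ : κ ≤ 5 / 4) (h : OneSidedK s B κ) : OneSided s B := by
  have hlll : Tendsto (fun x : ℝ => Real.log (Real.log (Real.log x))) atTop atTop :=
    Real.tendsto_log_atTop.comp (Real.tendsto_log_atTop.comp Real.tendsto_log_atTop)
  filter_upwards [h, hlll.eventually_ge_atTop 1] with x g1 g2
  refine g1.trans (mul_le_mul_of_nonneg_left (mul_le_mul_of_nonneg_left ?_ (Real.sqrt_nonneg _)) hB.le)
  exact Real.rpow_le_rpow_of_exponent_le g2 hκ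

theorem OneSidedK.ev {s B κ : ℝ} (h : OneSidedK s B κ) :
    ∀ᶠ v : ℝ in atTop, s * g v * Real.exp (-(v / 2)) ≤ B * Real.log (Real.log v) ^ κ := by
  filter_upwards [Real.tendsto_exp_atTop.eventually h] with v hv
  rw [Real.log_exp] at hv
  have h2 := mul_le_mul_of_nonneg_right hv (Real.exp_pos (-(v / 2))).le
  have e1 : Real.sqrt (Real.exp v) = Real.exp (v / 2) := by
    rw [Real.sqrt_eq_iff_mul_self_eq (Real.exp_pos _).le (Real.exp_pos _).le, ← Real.exp_add]
    congr 1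
    ring
  have e2 : Real.exp (v / 2) * Real.exp (-(v / 2)) = 1 := by
    rw [← Real.exp_add, add_neg_cancel, Real.exp_zero]
  rw [e1] at h2
  unfold g
  calc s * Mx (Real.exp v) * Real.exp (-(v / 2))
      ≤ B * (Real.exp (v / 2) * Real.log (Real.log v) ^ κ) * Real.exp (-(v / 2)) := h2
    _ = B * Real.log (Real.log v) ^ κ * (Real.exp (v / 2) * Real.exp (-(v / 2))) := by ring
    _ = _ := by rw [e2, mul_one]

theorem fM_le {s : ℝ} (hs : s = 1 ∨ s = -1) (v : ℝ) : s * g v * Real.exp (-(v / 2)) ≤ Real.exp (v / 2) := by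
  have h1 := (le_max_left (s * f v) 0).trans (f_le hs v)
  have e : s * g v * Real.exp (-(v / 2)) = s * f v := by
    unfold f g
    ring
  rw [e]
  exact h1

/-- the exponent of the precision -/
noncomputable def AA (θ T : ℝ) : ℝ := Real.log T ^ (θ - 1)

theorem pow_AA {θ T : ℝ} (hT : 1 < T) : T ^ AA θ T = Real.exp (Real.log T ^ θ) := by
  have hl : 0 < Real.log T := Real.log_pos hT
  rw [Real.rpow_def_of_pos (by linarith)]
  congr 1
  unfold AA
  rw [Real.rpow_sub_one hl.ne']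
  field_simp

/-- the inequality at one scale -/
theorem up_scaleK {s B a θ : ℝ} (hs : s = 1 ∨ s = -1) (hB : 0 < B) (ha0 : 0 ≤ a) (ha1 : a ≤ 5 / 4) (hθ : 1 ≤ θ)
    (h : OneSidedK s B a) {t₀ : ℝ} (ht₀ : 0 < t₀) :
    ∃ C : ℝ, 0 ≤ C ∧ ∀ᶠ T : ℝ in atTop, ∀ S : Finset ℝ, Free (AA θ T) T S →
      (∀ t ∈ S, t₀ ≤ t ∧ t ≤ T ∧ riemannZeta (1 / 2 + t * I) = 0) → (S.card : ℝ) ≤ T ^ 3 →
      Real.exp (-(Real.exp (Real.log T ^ θ) * T ^ 4)) *
        ∑ t ∈ S, ‖lapC g (pt t + (Real.exp (-(Real.exp (Real.log T ^ θ) * T ^ 4)) : ℝ))‖ ≤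
        C * Real.log T ^ (θ * a) := by
  have hg := (h.one hB ha1).lint hs hB
  obtain ⟨v1, hv1⟩ := eventually_atTop.1 h.ev
  obtain ⟨v0, hv0⟩ : ∃ v0 : ℝ, v0 = max v1 (Real.exp 1) := ⟨_, rfl⟩
  obtain ⟨K, hK⟩ : ∃ K : ℝ, K = Real.exp (v0 / 2) := ⟨_, rfl⟩
  have hK0 : 0 < K := by rw [hK]; exact Real.exp_pos _
  refine ⟨K + 3 + 5 * (B * 5 ^ a), by positivity, ?_⟩
  -- eventual conditions
  have E6a : ∀ᶠ T : ℝ in atTop, Real.log T ^ θ ≤ 1 / 16 * T := by
    have h1 := (isLittleO_log_rpow_rpow_atTop θ (show (0 : ℝ) < 1 by norm_num)).bound (c := 1 / 16) (by norm_num)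
    filter_upwards [h1, eventually_ge_atTop 1] with T h2 h3
    rw [Real.rpow_one, Real.norm_of_nonneg (Real.rpow_nonneg (Real.log_nonneg h3) _),
      Real.norm_of_nonneg (by linarith)] at h2
    exact h2
  have E6b : ∀ᶠ T : ℝ in atTop, 10 * B ≤ Real.exp (T / 2) :=
    (Real.tendsto_exp_atTop.comp (tendsto_id.atTop_div_const (by norm_num))).eventually_ge_atTop _
  have E6 : ∀ᶠ T : ℝ in atTop, K + 5 * B * (Real.exp (Real.log T ^ θ) * T ^ 4) ^ 2 ≤ Real.exp T := by
    have h1 := (Asymptotics.isLittleO_iff.1 Real.isLittleO_log_id_atTop) (c := 1 / 64) (by norm_num)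
    filter_upwards [E6a, E6b, h1, Real.tendsto_exp_atTop.eventually_ge_atTop (2 * K), eventually_ge_atTop 1] with
      T h2 h3 h4 h5 h6
    simp only [id] at h4
    rw [Real.norm_of_nonneg (Real.log_nonneg h6), Real.norm_of_nonneg (by linarith)] at h4
    have hT0 : 0 < T := by linarith
    have e1 : (Real.exp (Real.log T ^ θ) * T ^ 4) ^ 2 = Real.exp (2 * Real.log T ^ θ + 8 * Real.log T) := by
      have e2 : T ^ 4 = Real.exp (4 * Real.log T) := by
        rw [mul_comm, ← Real.rpow_def_of_pos hT0]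
        exact_mod_cast (Real.rpow_natCast T 4).symm
      rw [e2, ← Real.exp_add, ← Real.exp_nat_mul]
      congr 1
      push_cast
      ring
    rw [e1]
    have h7 : Real.exp (2 * Real.log T ^ θ + 8 * Real.log T) ≤ Real.exp (T / 2) := Real.exp_le_exp.2 (by linarith)
    have h8 : Real.exp (T / 2) * Real.exp (T / 2) = Real.exp T := by
      rw [← Real.exp_add]
      congr 1
      ring
    have h9 : 10 * B * Real.exp (T / 2) ≤ Real.exp T := by
      rw [← h8]
      exact mul_le_mul_of_nonneg_right h3 (Real.exp_pos _).le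
    have h10 : 5 * B * Real.exp (2 * Real.log T ^ θ + 8 * Real.log T) ≤ 5 * B * Real.exp (T / 2) :=
      mul_le_mul_of_nonneg_left h7 (by positivity)
    linarith
  have E7 : ∀ᶠ T : ℝ in atTop, 3 + 26400 * Real.log (T + 5) ≤ T := by
    have h1 := (Asymptotics.isLittleO_iff.1 Real.isLittleO_log_id_atTop) (c := 1 / 80000) (by norm_num)
    have h2 := (tendsto_atTop_add_const_right atTop (5 : ℝ) tendsto_id).eventually h1
    filter_upwards [h2, eventually_ge_atTop (100 : ℝ)] with T h3 h4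
    simp only [id] at h3
    rw [Real.norm_of_nonneg (Real.log_nonneg (by linarith)), Real.norm_of_nonneg (by linarith)] at h3
    linarith
  have hPR : Tendsto (fun T : ℝ => Real.exp (Real.log T ^ θ) * T ^ 4) atTop atTop := by
    refine tendsto_atTop_mono' atTop ?_ tendsto_id
    filter_upwards [eventually_ge_atTop 1] with T hT
    have h1 : 1 ≤ Real.exp (Real.log T ^ θ) := Real.one_le_exp (Real.rpow_nonneg (Real.log_nonneg hT) _)
    have h2 : T ≤ T ^ 4 := le_self_pow₀ hT (by norm_num)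
    simp only [id]
    nlinarith
  have hδt : Tendsto (fun T : ℝ => Real.exp (-(Real.exp (Real.log T ^ θ) * T ^ 4))) atTop (𝓝[>] 0) := by
    refine tendsto_nhdsWithin_iff.2 ⟨?_, Eventually.of_forall fun T => mem_Ioi.2 (Real.exp_pos _)⟩
    exact Real.tendsto_exp_atBot.comp (tendsto_neg_atTop_atBot.comp hPR)
  have hz := (zero_lim hg).abs
  rw [abs_zero] at hz
  have E8 := hδt.eventually (hz.eventually_le_const one_pos)
  have E9 : ∀ᶠ T : ℝ in atTop, Real.exp (-T) ≤ t₀ := by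
    have h1 : Tendsto (fun T : ℝ => Real.exp (-T)) atTop (𝓝 0) :=
      Real.tendsto_exp_atBot.comp tendsto_neg_atTop_atBot
    exact h1.eventually_le_const ht₀
  filter_upwards [E6, E7, E8, E9, eventually_ge_atTop (20 : ℝ),
    Real.tendsto_log_atTop.eventually_ge_atTop 1] with T e6 e7 e8 e9 hT20 hX1 S hC hS hcard
  have hT0 : 0 < T := by linarith
  have hP' : T ^ AA θ T = Real.exp (Real.log T ^ θ) := pow_AA (by linarith)
  obtain ⟨P, hP⟩ : ∃ P : ℝ, P = Real.exp (Real.log T ^ θ) := ⟨_, rfl⟩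
  rw [← hP] at hP' e6 e8 ⊢
  have hP1 : T ≤ P := by
    rw [hP, ← Real.exp_log hT0]
    refine Real.exp_le_exp.2 ?_
    rw [Real.log_exp]
    calc Real.log T = Real.log T ^ (1 : ℝ) := (Real.rpow_one _).symm
      _ ≤ Real.log T ^ θ := Real.rpow_le_rpow_of_exponent_le hX1 hθ
  obtain ⟨R, hR⟩ : ∃ R : ℝ, R = T ^ 4 := ⟨_, rfl⟩
  have hR0 : 0 < R := by rw [hR]; positivity
  rw [← hR] at e6 e8 ⊢
  have hR3 : R = T * T ^ 3 := by rw [hR]; ring
  have hT3 : (20 : ℝ) ≤ T ^ 3 := by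
    calc (20 : ℝ) ≤ T := hT20
      _ ≤ T ^ 3 := le_self_pow₀ (by linarith) (by norm_num)
  have hPR3 : 20 * (P * T ^ 3) ≤ P * R := by
    rw [hR3]
    have h1 : 0 ≤ P * T ^ 3 := mul_nonneg (by linarith) (by linarith)
    have h2 : 20 * (P * T ^ 3) ≤ T * (P * T ^ 3) := mul_le_mul_of_nonneg_right hT20 h1
    calc 20 * (P * T ^ 3) ≤ T * (P * T ^ 3) := h2
      _ = P * (T * T ^ 3) := by ring
  have hPP3 : P ≤ P * T ^ 3 := le_mul_of_one_le_right (by linarith) (by linarith)
  have hTP3 : T ^ 3 ≤ P * T ^ 3 := le_mul_of_one_le_left (by positivity) (by linarith)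
  have hTT3 : T ≤ T ^ 3 := le_self_pow₀ (by linarith) (by norm_num)
  obtain ⟨δ, hδ⟩ : ∃ δ : ℝ, δ = Real.exp (-(P * R)) := ⟨_, rfl⟩
  rw [← hδ] at e8 ⊢
  have hδ0 : 0 < δ := by rw [hδ]; exact Real.exp_pos _
  have hδi : δ⁻¹ = Real.exp (P * R) := by rw [hδ, ← Real.exp_neg, neg_neg]
  have hδ20 : δ ≤ 1 := by
    rw [hδ, Real.exp_le_one_iff]
    linarith
  have hlogδ : Real.log δ⁻¹ = P * R := by rw [hδi, Real.log_exp]
  have hD : Real.exp (Real.exp 1) ≤ δ⁻¹ := by
    rw [hδi]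
    refine Real.exp_le_exp.2 ?_
    have := Real.exp_one_lt_d9
    linarith
  have hSz : ∀ t ∈ S, 0 < t ∧ t ≤ T ∧ riemannZeta (1 / 2 + t * I) = 0 := fun t ht =>
    ⟨by linarith [(hS t ht).1], (hS t ht).2.1, (hS t ht).2.2⟩
  have hL1 : 1 ≤ Real.log δ⁻¹ := log_ge (exp_le.trans hD)
  have hLL1 : 1 ≤ Real.log (Real.log δ⁻¹) := llog_ge hD
  obtain ⟨Y, hY⟩ : ∃ Y : ℝ, Y = B * Real.log (Real.log δ⁻¹) ^ a := ⟨_, rfl⟩
  have hY0 : 0 ≤ Y := by rw [hY]; exact mul_nonneg hB.le (Real.rpow_nonneg (by linarith) _)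
  have hYq : Y ≤ B * q δ⁻¹ := by
    rw [hY]
    exact mul_le_mul_of_nonneg_left (Real.rpow_le_rpow_of_exponent_le hLL1 ha1) hB.le
  have hη0 : 0 ≤ (Real.log δ⁻¹)⁻¹ := by positivity
  have hη1 : (Real.log δ⁻¹)⁻¹ ≤ 1 := inv_le_one_of_one_le₀ hL1
  have hnl : ∀ z : ℂ, ‖lapC (fun v => s * g v) z‖ = ‖lapC g z‖ := by
    intro z
    rw [lapC_const, norm_mul, Complex.norm_real, Real.norm_eq_abs, s_abs hs, one_mul]
  -- the upper bound
  have hup := sidedG (F := fun v => s * g v) (K := K) (Y := Y) (δ := δ) (η := (Real.log δ⁻¹)⁻¹) hK0.le hY0 hδ0 hη0 hη1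
    ((hg _ (by linarith)).const_mul s) (fun v hv => by
      have h1 : 0 ≤ Y * (1 + (Real.log δ⁻¹)⁻¹ * (δ * v)) ^ 2 := by positivity
      rcases le_total v v0 with h2 | h2
      · have h3 := fM_le hs v
        have h4 : Real.exp (v / 2) ≤ K := by rw [hK]; exact Real.exp_le_exp.2 (by linarith)
        show s * g v * Real.exp (-(v / 2)) ≤ _
        linarith
      · have h3 := hv1 v ((le_max_left _ _).trans (hv0 ▸ h2))
        have h4 := mul_le_mul_of_nonneg_left (qa_key ha0 ha1 hD ((le_max_right v1 (Real.exp 1)).trans (hv0 ▸ h2))) hB.le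
        have e : v / δ⁻¹ = δ * v := by rw [div_inv_eq_mul, mul_comm]
        rw [e, ← mul_assoc, ← hY] at h4
        show s * g v * Real.exp (-(v / 2)) ≤ _
        linarith) S
    (η' := Real.exp (-P)) (Q := 3 * Real.exp (3300 * Real.log (R + 5) * (1 + P))) (Real.exp_pos _)
    (by rw [hδ]; exact Real.exp_le_exp.2 (by linarith)) (fun t ht => mem_W_one ht) (fun x hx => W_mono hx)
    (by positivity) (fun x hx => by
      rw [← hP']
      refine far0 hC hSz (fun t ht => ?_) hx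
      refine le_trans ?_ (e9.trans (hS t ht).1)
      rw [hP']
      exact Real.exp_le_exp.2 (by linarith)) (fun x hx => by
      have h1 : |x| ≤ R := by
        have h2 := W_abs (U := T) (fun t ht => ⟨(hSz t ht).1, (hSz t ht).2.1⟩) hx
        refine h2.trans ?_
        calc (S.card : ℝ) * T ≤ T ^ 3 * T := mul_le_mul_of_nonneg_right hcard hT0.le
          _ = R := by rw [hR]; ring
      have h3 := lap_up hg (by linarith) hC hSz hx h1 hδ0 hδ20
      rw [hnl]
      rwa [hP'] at h3)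
  have hsum : ∑ t ∈ S, ‖lapC (fun v => s * g v) (pt t + δ)‖ = ∑ t ∈ S, ‖lapC g (pt t + δ)‖ :=
    Finset.sum_congr rfl fun t _ => hnl _
  rw [hsum, lap_const_mul] at hup
  -- sizes
  have hlogPR : Real.log (P * R) ≤ 5 * Real.log T ^ θ := by
    rw [Real.log_mul (by linarith) hR0.ne', hP, Real.log_exp, hR, Real.log_pow]
    have h1 : Real.log T ≤ Real.log T ^ θ := by
      calc Real.log T = Real.log T ^ (1 : ℝ) := (Real.rpow_one _).symm
        _ ≤ Real.log T ^ θ := Real.rpow_le_rpow_of_exponent_le hX1 hθ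
    push_cast
    linarith
  have hYT : Y ≤ B * 5 ^ a * Real.log T ^ (θ * a) := by
    rw [hY, hlogδ, mul_assoc]
    refine mul_le_mul_of_nonneg_left ?_ hB.le
    rw [hlogδ] at hLL1
    calc Real.log (P * R) ^ a ≤ (5 * Real.log T ^ θ) ^ a := Real.rpow_le_rpow (by linarith) hlogPR ha0
      _ = 5 ^ a * Real.log T ^ (θ * a) := by
          rw [Real.mul_rpow (by norm_num) (Real.rpow_nonneg (by linarith) _), ← Real.rpow_mul (by linarith)]
  have hqb : 5 * Y ≤ Real.exp T - K := by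
    have h1 := q_le_sq (exp_le.trans hD)
    rw [hlogδ] at h1
    have h3 := mul_le_mul_of_nonneg_left h1 (show 0 ≤ 5 * B by positivity)
    linarith
  have h2N : ∀ n : ℕ, (2 : ℝ) ^ n ≤ Real.exp n := by
    intro n
    calc (2 : ℝ) ^ n ≤ Real.exp 1 ^ n :=
          pow_le_pow_left₀ (by norm_num) (by have := Real.exp_one_gt_d9; linarith) n
      _ = Real.exp n := by rw [← Real.exp_nat_mul, mul_one]
  have t1 : δ * (2 ^ (S.card + 1) * ((K + 5 * Y) / Real.exp (-P))) ≤ 1 := by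
    have h1 : (2 : ℝ) ^ (S.card + 1) ≤ Real.exp (T ^ 3 + 1) := by
      refine (h2N _).trans (Real.exp_le_exp.2 ?_)
      push_cast
      linarith
    have h2 : (K + 5 * Y) / Real.exp (-P) ≤ Real.exp T * Real.exp P := by
      rw [Real.exp_neg, div_inv_eq_mul]
      exact mul_le_mul_of_nonneg_right (by linarith) (Real.exp_pos _).le
    have h3 : 0 ≤ (K + 5 * Y) / Real.exp (-P) := by positivity
    calc _ ≤ δ * (Real.exp (T ^ 3 + 1) * (Real.exp T * Real.exp P)) := by gcongr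
      _ = Real.exp (-(P * R) + (T ^ 3 + 1 + (T + P))) := by
          rw [hδ, ← Real.exp_add, ← Real.exp_add, ← Real.exp_add]
      _ ≤ 1 := by
          rw [Real.exp_le_one_iff]
          linarith
  have t2 : δ * (2 ^ S.card * (3 * Real.exp (3300 * Real.log (R + 5) * (1 + P)))) ≤ 1 := by
    have h1 : (2 : ℝ) ^ S.card ≤ Real.exp (T ^ 3) := (h2N _).trans (Real.exp_le_exp.2 hcard)
    have h3 : (3 : ℝ) ≤ Real.exp 2 := by have := Real.add_one_le_exp (2 : ℝ); linarith
    calc _ ≤ δ * (Real.exp (T ^ 3) * (Real.exp 2 * Real.exp (3300 * Real.log (R + 5) * (1 + P)))) := by gcongr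
      _ = Real.exp (-(P * R) + (T ^ 3 + (2 + 3300 * Real.log (R + 5) * (1 + P)))) := by
          rw [hδ, ← Real.exp_add, ← Real.exp_add, ← Real.exp_add]
      _ ≤ 1 := by
          rw [Real.exp_le_one_iff]
          have h4 : 0 ≤ Real.log (T + 5) := Real.log_nonneg (by linarith)
          have h8 : Real.log (R + 5) ≤ 4 * Real.log (T + 5) := by
            have h9 : Real.log (R + 5) ≤ Real.log ((T + 5) ^ 4) := by
              refine Real.log_le_log (by linarith) ?_
              rw [hR]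
              have h10 : (T + 5) ^ 4 = T ^ 4 + (20 * T ^ 3 + 150 * T ^ 2 + 500 * T + 625) := by ring
              rw [h10]
              have h11 : 0 ≤ 20 * T ^ 3 + 150 * T ^ 2 + 500 * T := by positivity
              linarith
            rw [Real.log_pow] at h9
            exact_mod_cast h9
          have h5 : 3300 * Real.log (R + 5) * (1 + P) ≤ 3300 * (4 * Real.log (T + 5)) * (2 * P) :=
            mul_le_mul (by linarith) (by linarith) (by linarith) (by linarith)
          have h6 : P * (3 + 26400 * Real.log (T + 5)) ≤ P * T := mul_le_mul_of_nonneg_left e7 (by linarith)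
          have h7 : P * (3 + 26400 * Real.log (T + 5)) = 3 * P + 3300 * (4 * Real.log (T + 5)) * (2 * P) := by ring
          have h12 : P * T ≤ P * T ^ 3 := mul_le_mul_of_nonneg_left hTT3 (by linarith)
          linarith
  have t3 : Y * (1 + 2 * (Real.log δ⁻¹)⁻¹ + 2 * (Real.log δ⁻¹)⁻¹ ^ 2) ≤ Y * 5 := by
    refine mul_le_mul_of_nonneg_left ?_ hY0
    have h1 : (Real.log δ⁻¹)⁻¹ ^ 2 ≤ 1 := pow_le_one₀ hη0 hη1
    linarith
  have t4 : -1 ≤ δ * (s * lap g (1 / 2 + δ)) := by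
    have h1 : |δ * (s * lap g (1 / 2 + δ))| ≤ 1 := by
      have e : δ * (s * lap g (1 / 2 + δ)) = s * (δ * lap g (1 / 2 + δ)) := by ring
      rw [e, abs_mul, s_abs hs, one_mul]
      exact e8
    exact (abs_le.1 h1).1
  have hfin : δ * ∑ t ∈ S, ‖lapC g (pt t + δ)‖ ≤ K + 3 + 5 * Y := by linarith
  refine hfin.trans ?_
  have hXa : 1 ≤ Real.log T ^ (θ * a) := Real.one_le_rpow hX1 (by positivity)
  have h1 : (K + 3) * 1 ≤ (K + 3) * Real.log T ^ (θ * a) := mul_le_mul_of_nonneg_left hXa (by positivity)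
  calc K + 3 + 5 * Y ≤ (K + 3) * Real.log T ^ (θ * a) + 5 * (B * 5 ^ a * Real.log T ^ (θ * a)) := by linarith
    _ = _ := by ring

end Pool.Agent.H158.GK
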